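import Pool.Agent.L0h5.TE.Low

/-!
# Lower bound of the local count by the elements in one direction: the proof
-/

set_option autoImplicit false

namespace Pool.Agent.L0h80.TE

open Finset Pool.Agent.W262.RK Pool.Agent.W125.RK2 Pool.Agent.L0h5.TF Pool.Agent.L0h5.TE

/-- the condition in the direction `e` -/
def Q (e : Bool × Bool) (L : Bool → Bool → Bool → Bool → Prop) (x u : Bool) : Prop :=
  L (x && e.1) (x && e.2) (u && e.1) (u && e.2)

lemma Q_zero {e : Bool × Bool} {L : Bool → Bool → Bool → Bool → Prop} (h : XC L) :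
    Q e L false false := by
  unfold Q
  simpa using h.1

lemma Q_add {e : Bool × Bool} {L : Bool → Bool → Bool → Bool → Prop} (h : XC L)
    {x u y w : Bool} (h1 : Q e L x u) (h2 : Q e L y w) : Q e L (xor x y) (xor u w) := by
  unfold Q at *
  have h3 := h.2 _ _ _ _ _ _ _ _ h1 h2
  have e1 : ∀ a b c : Bool, (xor (a && c) (b && c)) = (xor a b && c) := by decide
  rw [e1, e1, e1, e1] at h3
  exact h3

open Classical in
/-- the number of the allowed pairs -/
noncomputable def nQ (e : Bool × Bool) (L : Bool → Bool → Bool → Bool → Prop) : ℕ :=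
  (univ.filter (fun c : Bool × Bool => Q e L c.1 c.2)).card

lemma tq_eq (e : Bool × Bool) (L : Bool → Bool → Bool → Bool → Prop) :
    tq e L = (1 / 2) * (nQ e L : ℝ) := by
  classical
  unfold tq nQ iL
  rw [card_filter, ← univ_product_univ, sum_product]
  push_cast
  rfl

open Classical in
/-- the divisors that satisfy the conditions at the primes of `A` -/
noncomputable def SA (s : ℕ) (L : ℕ → Bool → Bool → Bool → Bool → Prop) (e : Bool × Bool)
    (A : Finset ℕ) : Finset ℕ :=
  s.divisors.filter (fun d : ℕ => ∀ p ∈ A, Q e (L p) (dv p d) (sgn p d))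

lemma dv_one {p : ℕ} (hp : p.Prime) : dv p ((1 : ℕ) : ℤ) = false := by
  rw [dv_eq]
  simpa using hp.one_lt.ne'

lemma sgn_one {p : ℕ} : sgn p ((1 : ℕ) : ℤ) = false := by
  unfold sgn sg0
  simp

lemma sig_dvd' {s d b : ℕ} (hs : Squarefree s) (hd : d ∣ s) (hb : b ∣ s) : sig d b ∣ s := by
  have h := sig_dvd (m := s) (e := 1) (d := d) (b := b) (by simpa using hs) (by simpa using hd)
    (by simpa using hb) (by simp)
  exact h

/-- the shift by `b` -/
def xe (b : Bool) : Bool ≃ Bool where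
  toFun := xor b
  invFun := xor b
  left_inv := by intro x; cases b <;> cases x <;> rfl
  right_inv := by intro x; cases b <;> cases x <;> rfl

lemma step (s : ℕ) (L : ℕ → Bool → Bool → Bool → Bool → Prop) (hs : Squarefree s)
    (hL : ∀ p, p.Prime → p ∣ s → XC (L p)) (e : Bool × Bool) (A : Finset ℕ)
    (hA : A ⊆ s.primeFactors) (q : ℕ) (hq : q ∈ s.primeFactors) :
    (SA s L e A).card * nQ e (L q) ≤ 4 * (SA s L e (insert q A)).card := by
  classical
  have hqp := Nat.prime_of_mem_primeFactors hq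
  have hqs := Nat.dvd_of_mem_primeFactors hq
  -- the shifted sets
  have hc : ∀ c : Bool × Bool, ((SA s L e A).filter (fun d : ℕ =>
      Q e (L q) (xor (dv q d) c.1) (xor (sgn q d) c.2))).card ≤
      (SA s L e (insert q A)).card := by
    intro c
    rcases ((SA s L e A).filter (fun d : ℕ =>
      Q e (L q) (xor (dv q d) c.1) (xor (sgn q d) c.2))).eq_empty_or_nonempty with h | ⟨b, hb⟩
    · rw [h, card_empty]
      exact Nat.zero_le _
    · rw [mem_filter] at hb
      obtain ⟨hb1, hb2⟩ := hb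
      have hb1' := hb1
      unfold SA at hb1
      rw [mem_filter, Nat.mem_divisors] at hb1
      obtain ⟨⟨hbs, -⟩, hbA⟩ := hb1
      have hbq := hs.squarefree_of_dvd hbs
      apply Finset.card_le_card_of_injOn (fun d : ℕ => sig d b)
      · intro d hd
        rw [mem_coe, mem_filter] at hd
        obtain ⟨hd1, hd2⟩ := hd
        unfold SA at hd1
        rw [mem_filter, Nat.mem_divisors] at hd1
        obtain ⟨⟨hds, -⟩, hdA⟩ := hd1
        have hdq := hs.squarefree_of_dvd hds
        rw [mem_coe]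
        unfold SA
        rw [mem_filter, Nat.mem_divisors]
        refine ⟨⟨sig_dvd' hs hds hbs, hs.ne_zero⟩, ?_⟩
        intro p hp
        rw [mem_insert] at hp
        rcases hp with rfl | hp
        · rw [dv_sig hdq hbq hqp, sgn_sig hdq hbq hqp]
          have h3 := Q_add (hL _ hqp hqs) hd2 hb2
          have e1 : ∀ a b c : Bool, xor (xor a c) (xor b c) = xor a b := by decide
          rwa [e1, e1] at h3
        · have hp' := hA hp
          have hpp := Nat.prime_of_mem_primeFactors hp'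
          rw [dv_sig hdq hbq hpp, sgn_sig hdq hbq hpp]
          exact Q_add (hL p hpp (Nat.dvd_of_mem_primeFactors hp')) (hdA p hp) (hbA p hp)
      · intro d hd d' hd' h
        rw [mem_coe, mem_filter] at hd hd'
        have g := hd.1
        have g' := hd'.1
        unfold SA at g g'
        rw [mem_filter, Nat.mem_divisors] at g g'
        exact sig_inj (m := s) (e := 1) (by simpa using hs) (by simpa using g.1.1)
          (by simpa using g'.1.1) (by simpa using hbs) (by simp) (by simp) h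
  have h1 : (SA s L e A).card * nQ e (L q) = ∑ c : Bool × Bool, ((SA s L e A).filter
      (fun d : ℕ => Q e (L q) (xor (dv q d) c.1) (xor (sgn q d) c.2))).card := by
    simp_rw [card_filter]
    rw [sum_comm]
    rw [card_eq_sum_ones, sum_mul]
    refine sum_congr rfl fun d _ => ?_
    unfold nQ
    rw [one_mul, card_filter]
    symm
    refine Fintype.sum_equiv ((xe (dv q d)).prodCongr (xe (sgn q d))) _ _ ?_
    intro c
    rfl
  rw [h1]
  refine (sum_le_sum fun c _ => hc c).trans ?_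
  rw [sum_const, card_univ]
  simp

lemma tq_nonneg (e : Bool × Bool) (L : Bool → Bool → Bool → Bool → Prop) : 0 ≤ tq e L := by
  rw [tq_eq]
  positivity

lemma nQ_pos {e : Bool × Bool} {L : Bool → Bool → Bool → Bool → Prop} (h : XC L) :
    0 < nQ e L := by
  classical
  unfold nQ
  rw [card_pos]
  exact ⟨(false, false), by simpa using Q_zero h⟩

lemma lowA (s : ℕ) (L : ℕ → Bool → Bool → Bool → Bool → Prop) (hs : Squarefree s)
    (hL : ∀ p, p.Prime → p ∣ s → XC (L p)) (e : Bool × Bool) (A : Finset ℕ)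
    (hA : A ⊆ s.primeFactors) :
    2 ^ s.primeFactors.card * ∏ p ∈ A, nQ e (L p) ≤ 4 ^ A.card * (SA s L e A).card := by
  classical
  induction A using Finset.induction_on with
  | empty =>
    rw [prod_empty, mul_one, card_empty, pow_zero, one_mul, ← card_div hs]
    apply le_of_eq
    unfold SA
    congr 1
    rw [filter_true_of_mem]
    intro d _ p hp
    exact absurd hp (notMem_empty p)
  | insert q A hqA ih =>
    have hAs : A ⊆ s.primeFactors := fun p hp => hA (mem_insert_of_mem hp)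
    have hq : q ∈ s.primeFactors := hA (mem_insert_self q A)
    have h1 := ih hAs
    have h2 := step s L hs hL e A hAs q hq
    rw [prod_insert hqA, card_insert_of_notMem hqA, pow_succ]
    calc 2 ^ s.primeFactors.card * (nQ e (L q) * ∏ p ∈ A, nQ e (L p)) =
        (2 ^ s.primeFactors.card * ∏ p ∈ A, nQ e (L p)) * nQ e (L q) := by ring
      _ ≤ (4 ^ A.card * (SA s L e A).card) * nQ e (L q) := Nat.mul_le_mul_right _ h1
      _ = 4 ^ A.card * ((SA s L e A).card * nQ e (L q)) := by ring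
      _ ≤ 4 ^ A.card * (4 * (SA s L e (insert q A)).card) := Nat.mul_le_mul_left _ h2
      _ = 4 ^ A.card * 4 * (SA s L e (insert q A)).card := by ring

lemma low1 (s : ℕ) (L : ℕ → Bool → Bool → Bool → Bool → Prop) (hs : Squarefree s)
    (hL : ∀ p, p.Prime → p ∣ s → XC (L p)) (e : Bool × Bool) :
    ∏ p ∈ s.primeFactors, tq e (L p) ≤ ((SA s L e s.primeFactors).card : ℝ) := by
  have h1 := lowA s L hs hL e s.primeFactors (Subset.refl _)
  have h2 : (2 : ℝ) ^ s.primeFactors.card * ∏ p ∈ s.primeFactors, (nQ e (L p) : ℝ) ≤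
      4 ^ s.primeFactors.card * ((SA s L e s.primeFactors).card : ℝ) := by
    exact_mod_cast h1
  have h3 : ∏ p ∈ s.primeFactors, tq e (L p) =
      (1 / 2) ^ s.primeFactors.card * ∏ p ∈ s.primeFactors, (nQ e (L p) : ℝ) := by
    rw [prod_congr rfl fun p _ => tq_eq e (L p), prod_mul_distrib, prod_const]
  have h4 : (4 : ℝ) ^ s.primeFactors.card = 2 ^ s.primeFactors.card * 2 ^ s.primeFactors.card := by
    rw [← mul_pow]; norm_num
  rw [h4, mul_assoc] at h2
  have h5 := le_of_mul_le_mul_left h2 (by positivity)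
  rw [h3]
  calc (1 / 2 : ℝ) ^ s.primeFactors.card * ∏ p ∈ s.primeFactors, (nQ e (L p) : ℝ) ≤
      (1 / 2 : ℝ) ^ s.primeFactors.card * (2 ^ s.primeFactors.card *
        ((SA s L e s.primeFactors).card : ℝ)) := mul_le_mul_of_nonneg_left h5 (by positivity)
    _ = ((SA s L e s.primeFactors).card : ℝ) := by
      rw [← mul_assoc, ← mul_pow]; norm_num

lemma one_mem_SA (s : ℕ) (L : ℕ → Bool → Bool → Bool → Bool → Prop) (hs : Squarefree s)
    (hL : ∀ p, p.Prime → p ∣ s → XC (L p)) (e : Bool × Bool) :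
    1 ∈ SA s L e s.primeFactors := by
  classical
  unfold SA
  rw [mem_filter, Nat.mem_divisors]
  refine ⟨⟨one_dvd _, hs.ne_zero⟩, fun p hp => ?_⟩
  have hpp := Nat.prime_of_mem_primeFactors hp
  rw [dv_one hpp, sgn_one]
  exact Q_zero (hL p hpp (Nat.dvd_of_mem_primeFactors hp))

/-- the element or `1` -/
def pw (b : Bool) (d : ℕ) : ℕ := if b then d else 1

lemma pw_dvd {b : Bool} {d s : ℕ} (h : d ∣ s) : pw b d ∣ s := by
  unfold pw
  split_ifs
  · exact h
  · exact one_dvd s

lemma dv_pw {b : Bool} {d p : ℕ} (hp : p.Prime) : dv p (pw b d : ℕ) = (dv p (d : ℤ) && b) := by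
  unfold pw
  cases b
  · simpa using dv_one hp
  · simp

lemma sgn_pw {b : Bool} {d p : ℕ} : sgn p (pw b d : ℕ) = (sgn p (d : ℤ) && b) := by
  unfold pw
  cases b
  · simpa using sgn_one
  · simp

lemma alg : ∀ e e' : Bool × Bool, e ≠ (false, false) → e' ≠ (false, false) → e ≠ e' →
    ∀ x y x' y' : Bool, (xor (x' && e.1) (y' && e'.1)) = (xor (x && e.1) (y && e'.1)) →
    (xor (x' && e.2) (y' && e'.2)) = (xor (x && e.2) (y && e'.2)) → x = x' ∧ y = y' := by
  rintro ⟨e1, e2⟩ ⟨e3, e4⟩ h1 h2 h3 x y x' y' h4 h5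
  cases e1 <;> cases e2 <;> cases e3 <;> cases e4 <;> cases x <;> cases y <;> cases x' <;>
    cases y' <;> simp at h1 h2 h3 h4 h5 ⊢

lemma card_mul_le (s : ℕ) (L : ℕ → Bool → Bool → Bool → Bool → Prop) (hs : Squarefree s)
    (hL : ∀ p, p.Prime → p ∣ s → XC (L p)) (e e' : Bool × Bool) (he : e ≠ (false, false))
    (he' : e' ≠ (false, false)) (hee : e ≠ e') :
    (SA s L e s.primeFactors).card * (SA s L e' s.primeFactors).card ≤ NL s L := by
  classical
  rw [← card_product]
  unfold NL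
  apply Finset.card_le_card_of_injOn (fun d : ℕ × ℕ =>
    (sig (pw e.1 d.1) (pw e'.1 d.2), sig (pw e.2 d.1) (pw e'.2 d.2)))
  · intro d hd
    rw [mem_coe, mem_product] at hd
    obtain ⟨h1, h2⟩ := hd
    unfold SA at h1 h2
    rw [mem_filter, Nat.mem_divisors] at h1 h2
    obtain ⟨⟨h1, -⟩, h1'⟩ := h1
    obtain ⟨⟨h2, -⟩, h2'⟩ := h2
    have q1 := fun b : Bool => hs.squarefree_of_dvd (pw_dvd (b := b) h1)
    have q2 := fun b : Bool => hs.squarefree_of_dvd (pw_dvd (b := b) h2)
    rw [mem_coe, mem_filter, mem_product, Nat.mem_divisors, Nat.mem_divisors]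
    refine ⟨⟨⟨sig_dvd' hs (pw_dvd h1) (pw_dvd h2), hs.ne_zero⟩,
      ⟨sig_dvd' hs (pw_dvd h1) (pw_dvd h2), hs.ne_zero⟩⟩, ?_⟩
    intro p hp
    have hpp := Nat.prime_of_mem_primeFactors hp
    have g1 := h1' p hp
    have g2 := h2' p hp
    show L p (dv p (sig _ _ : ℕ)) (dv p (sig _ _ : ℕ)) (sgn p (sig _ _ : ℕ))
        (sgn p (sig _ _ : ℕ))
    rw [dv_sig (q1 _) (q2 _) hpp, dv_sig (q1 _) (q2 _) hpp, sgn_sig (q1 _) (q2 _) hpp,
      sgn_sig (q1 _) (q2 _) hpp, dv_pw hpp, dv_pw hpp, dv_pw hpp, dv_pw hpp, sgn_pw, sgn_pw,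
      sgn_pw, sgn_pw]
    exact (hL p hpp (Nat.dvd_of_mem_primeFactors hp)).2 _ _ _ _ _ _ _ _ g1 g2
  · intro d hd d' hd' h
    rw [mem_coe, mem_product] at hd hd'
    obtain ⟨h1, h2⟩ := hd
    obtain ⟨h3, h4⟩ := hd'
    unfold SA at h1 h2 h3 h4
    rw [mem_filter, Nat.mem_divisors] at h1 h2 h3 h4
    have h1 := h1.1.1
    have h2 := h2.1.1
    have h3 := h3.1.1
    have h4 := h4.1.1
    have q1 := fun b : Bool => hs.squarefree_of_dvd (pw_dvd (b := b) h1)
    have q2 := fun b : Bool => hs.squarefree_of_dvd (pw_dvd (b := b) h2)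
    have q3 := fun b : Bool => hs.squarefree_of_dvd (pw_dvd (b := b) h3)
    have q4 := fun b : Bool => hs.squarefree_of_dvd (pw_dvd (b := b) h4)
    have a1 : sig (pw e.1 d.1) (pw e'.1 d.2) = sig (pw e.1 d'.1) (pw e'.1 d'.2) :=
      congrArg Prod.fst h
    have a2 : sig (pw e.2 d.1) (pw e'.2 d.2) = sig (pw e.2 d'.1) (pw e'.2 d'.2) :=
      congrArg Prod.snd h
    have key : ∀ p : ℕ, p.Prime → dv p (d.1 : ℤ) = dv p (d'.1 : ℤ) ∧
        dv p (d.2 : ℤ) = dv p (d'.2 : ℤ) := by
      intro p hpp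
      have b1 := dv_sig (q1 e.1) (q2 e'.1) hpp
      have b2 := dv_sig (q1 e.2) (q2 e'.2) hpp
      have b3 := dv_sig (q3 e.1) (q4 e'.1) hpp
      have b4 := dv_sig (q3 e.2) (q4 e'.2) hpp
      rw [a1, b3, dv_pw hpp, dv_pw hpp, dv_pw hpp, dv_pw hpp] at b1
      rw [a2, b4, dv_pw hpp, dv_pw hpp, dv_pw hpp, dv_pw hpp] at b2
      exact alg e e' he he' hee _ _ _ _ b1 b2
    have r : ∀ a b : ℕ, Squarefree a → Squarefree b → (∀ p : ℕ, p.Prime →
        dv p (a : ℤ) = dv p (b : ℤ)) → a = b := by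
      intro a b ha hb hab
      rw [Nat.Squarefree.ext_iff ha hb]
      intro p hp
      have := hab p hp
      rw [dv_eq, dv_eq, decide_eq_decide] at this
      exact this
    exact Prod.ext
      (r _ _ (hs.squarefree_of_dvd h1) (hs.squarefree_of_dvd h3) fun p hp => (key p hp).1)
      (r _ _ (hs.squarefree_of_dvd h2) (hs.squarefree_of_dvd h4) fun p hp => (key p hp).2)

theorem lownl : LOWNL := by
  intro s L hs hL e e' he he' hee
  have h1 := low1 s L hs hL e
  have h2 := low1 s L hs hL e'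
  have h3 : ((SA s L e s.primeFactors).card : ℝ) * ((SA s L e' s.primeFactors).card : ℝ) ≤
      (NL s L : ℝ) := by
    exact_mod_cast card_mul_le s L hs hL e e' he he' hee
  have h4 : (1 : ℝ) ≤ ((SA s L e s.primeFactors).card : ℝ) := by
    exact_mod_cast card_pos.2 ⟨1, one_mem_SA s L hs hL e⟩
  have h5 : (1 : ℝ) ≤ ((SA s L e' s.primeFactors).card : ℝ) := by
    exact_mod_cast card_pos.2 ⟨1, one_mem_SA s L hs hL e'⟩
  constructor <;> nlinarith

end Pool.Agent.L0h80.TE
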